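import Pool.Agent.Helper32.FR.PScale

/-! # Project FR: from the sentence to a scale -/

set_option autoImplicit false

namespace Pool.Agent.Helper32.FR

open Set Cardinal
open Pool.Agent.Helper33.HM Pool.Agent.Helper94.BA
open Pool.Agent.Results.MP_743798_lc.NonFrechetBelowB (Node bnum pnum IsBScale U dow I mk_I
  bnum_mem bounded_of_lt)

/-- The function coded by `x`. -/
noncomputable def h88fn (x : ℕ → Prop) (n : ℕ) : ℕ := sInf {k | fnLe x n k}

theorem h88fnLe_iff (x : ℕ → Prop) (n k : ℕ) : fnLe x n k ↔ h88fn x n ≤ k := by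
  have hne : {k | fnLe x n k}.Nonempty := by
    by_cases h : ∃ j, x (Nat.pair n j)
    · obtain ⟨j, hj⟩ := h
      exact ⟨j, Or.inl ⟨j, le_rfl, hj⟩⟩
    · push Not at h
      exact ⟨0, Or.inr h⟩
  constructor
  · intro h
    exact Nat.sInf_le h
  · intro h
    have h1 : fnLe x n (h88fn x n) := Nat.sInf_mem hne
    rcases h1 with ⟨j, hj, hx⟩ | h1
    · exact Or.inl ⟨j, hj.trans h, hx⟩
    · exact Or.inr h1

theorem h88leStar_iff (x y : ℕ → Prop) :
    LeStar x y ↔ {k | ¬ h88fn x k ≤ h88fn y k}.Finite := by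
  constructor
  · rintro ⟨m, hm⟩
    refine (Set.finite_lt_nat m).subset fun n hn => ?_
    by_contra hc
    apply hn
    have h1 := hm n (not_lt.1 hc) (h88fn y n) ((h88fnLe_iff _ _ _).2 le_rfl)
    exact (h88fnLe_iff _ _ _).1 h1
  · intro h
    obtain ⟨m, hm⟩ := h.bddAbove
    refine ⟨m + 1, fun n hn k hk => ?_⟩
    rw [h88fnLe_iff] at hk ⊢
    by_contra hc
    have h1 : ¬ h88fn x n ≤ h88fn y n := fun h2 => hc (h2.trans hk)
    have := hm h1
    omega

theorem h88valEq_iff (x : ℕ → Prop) (m j : ℕ) : valEq x m j ↔ h88fn x m = j := by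
  unfold valEq
  simp only [h88fnLe_iff]
  constructor
  · rintro ⟨h1, h2⟩
    by_contra hc
    exact h2 (h88fn x m) (lt_of_le_of_ne h1 hc) le_rfl
  · rintro rfl
    exact ⟨le_rfl, fun i hi h => absurd h (not_le.2 hi)⟩

theorem h88inc {x : ℕ → Prop} (h : Inc x) : StrictMono (h88fn x) := by
  apply strictMono_nat_of_lt_succ
  intro m
  obtain ⟨i, hi, h1⟩ := h m (h88fn x (m + 1)) ((h88fnLe_iff _ _ _).2 le_rfl)
  rw [h88fnLe_iff] at h1
  omega

/-- The code of a function. -/
def h88cd (f : ℕ → ℕ) (b : ℕ) : Prop := (Nat.unpair b).2 = f (Nat.unpair b).1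

theorem h88fn_cd (f : ℕ → ℕ) : h88fn (h88cd f) = f := by
  funext n
  have h1 : ∀ k, fnLe (h88cd f) n k ↔ f n ≤ k := by
    intro k
    unfold fnLe h88cd
    simp only [Nat.unpair_pair]
    constructor
    · rintro (⟨j, hj, rfl⟩ | h)
      · exact hj
      · exact absurd rfl (h (f n))
    · intro h
      exact Or.inl ⟨f n, h, rfl⟩
  apply le_antisymm
  · rw [← h88fnLe_iff, h1]
  · rw [← h1, h88fnLe_iff]

theorem h88sh_inj {s t : ℕ} {x y : ℕ → Prop} (h : sh s x = sh t y) : s = t ∧ x = y := by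
  have hs : ∀ (s : ℕ) (x : ℕ → Prop), ¬ sh s x s := by
    intro s x h
    rcases h with h | h
    · exact absurd h (lt_irrefl _)
    · exact absurd h.1 (lt_irrefl _)
  have hlt : ∀ (s : ℕ) (x : ℕ → Prop) (n : ℕ), n < s → sh s x n := fun s x n hn => Or.inl hn
  have h1 : s = t := by
    rcases lt_trichotomy s t with h2 | h2 | h2
    · have := hlt t y s h2
      rw [← h] at this
      exact absurd this (hs s x)
    · exact h2
    · have := hlt s x t h2
      rw [h] at this
      exact absurd this (hs t y)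
  subst h1
  refine ⟨rfl, ?_⟩
  funext n
  have h2 := congrFun h (s + n + 1)
  have h3 : ∀ x : ℕ → Prop, sh s x (s + n + 1) = x n := by
    intro x
    unfold sh
    have h4 : s + n + 1 - s - 1 = n := by omega
    rw [h4]
    apply propext
    constructor
    · rintro (h5 | h5)
      · omega
      · exact h5.2
    · intro h5
      exact Or.inr ⟨by omega, h5⟩
  rw [h3, h3] at h2
  exact h2

theorem h88ok_iff (t : List ℕ) (x : ℕ → Prop) :
    Ok t x ↔ t ∈ U (fun s => h88fn x (wt s)) := by
  unfold Ok U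
  simp only [h88valEq_iff, Set.mem_ofPred_eq]
  constructor
  · intro h i hi he
    exact h i hi he.symm
  · intro h i hi he
    exact h i hi he.symm

/-- The order of the scale. -/
theorem h88order {E : Set (ℕ → Prop)}
    (htot : ∀ x ∈ E, ∀ y ∈ E, LeStar x y ∨ LeStar y x)
    (hanti : ∀ x ∈ E, ∀ y ∈ E, LeStar x y → LeStar y x → x = y)
    (hdesc : ∀ r : ℕ → Prop, (∀ i, sec r i ∈ E) → ∃ i, LeStar (sec r i) (sec r (i + 1)))
    (hbd : ∀ C : Set (ℕ → Prop), ∀ x ∈ E, ∃ g : ℕ → Prop, ∀ y ∈ E, ¬ LeStar x y →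
      LeStar (wit C y) g)
    (hdom : ∀ g : ℕ → Prop, ∃ x ∈ E, LeStar g x) :
    ∃ e : I → ℕ → Prop, (∀ i, e i ∈ E) ∧ (∀ y ∈ E, ∃ i, e i = y) ∧
      ∀ i j, i ≤ j ↔ LeStar (e i) (e j) := by
  classical
  let r : E → E → Prop := fun x y => ¬ LeStar y.1 x.1
  have hwf : WellFounded r := by
    rw [wellFounded_iff_isEmpty_descending_chain]
    refine ⟨fun ⟨f, hf⟩ => ?_⟩
    have hsec : ∀ i, sec (fun b => (f (Nat.unpair b).1).1 (Nat.unpair b).2) i = (f i).1 := by
      intro i
      funext n
      simp only [sec, Nat.unpair_pair]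
    obtain ⟨i, hi⟩ := hdesc (fun b => (f (Nat.unpair b).1).1 (Nat.unpair b).2) (fun i => by
      rw [hsec]; exact (f i).2)
    rw [hsec, hsec] at hi
    exact hf i hi
  have hwo : IsWellOrder E r :=
    { wf := hwf
      trichotomous := fun x y h1 h2 => by
        have h1' : LeStar y.1 x.1 := not_not.1 h1
        have h2' : LeStar x.1 y.1 := not_not.1 h2
        exact Subtype.ext (hanti _ x.2 _ y.2 h2' h1') }
  have hseg : ∀ x : E, #{y : E // r y x} < bnum := by
    intro x
    by_contra hc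
    push Not at hc
    obtain ⟨F, hF, hunb⟩ := bnum_mem
    rw [← hF] at hc
    obtain ⟨ι⟩ := Cardinal.le_def _ _ |>.1 hc
    obtain ⟨g, hg⟩ := hbd {z | ∃ (f : F) (n : ℕ), z = sh n (ι f).1.1 ∧ h88cd f.1 n} x.1 x.2
    obtain ⟨f, hf, hf2⟩ := hunb (h88fn g)
    have h1 := hg (ι ⟨f, hf⟩).1.1 (ι ⟨f, hf⟩).1.2 (ι ⟨f, hf⟩).2
    have h2 : wit {z | ∃ (f : F) (n : ℕ), z = sh n (ι f).1.1 ∧ h88cd f.1 n} (ι ⟨f, hf⟩).1.1 =
        h88cd f := by
      funext n
      apply propext
      constructor
      · rintro ⟨f', n', h3, h4⟩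
        obtain ⟨rfl, h5⟩ := h88sh_inj h3
        have h6 : (⟨f, hf⟩ : F) = f' := ι.injective (Subtype.ext (Subtype.ext h5))
        rw [← h6] at h4
        exact h4
      · intro h3
        exact ⟨⟨f, hf⟩, n, rfl, h3⟩
    rw [h2, h88leStar_iff, h88fn_cd] at h1
    exact hf2 h1
  have htype : Ordinal.type r = bnum.ord := by
    apply le_antisymm
    · by_contra hc
      push Not at hc
      obtain ⟨x, hx⟩ := Ordinal.typein_surj r hc
      have h1 := hseg x
      rw [← Ordinal.card_typein (r := r) x, hx, Cardinal.card_ord] at h1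
      exact lt_irrefl _ h1
    · rw [Cardinal.ord_le, Ordinal.card_type]
      by_contra hc
      push Not at hc
      obtain ⟨g, hg⟩ := bounded_of_lt (Set.range fun x : E => h88fn x.1)
        (Cardinal.mk_range_le.trans_lt hc)
      obtain ⟨x, hx, hx2⟩ := hdom (h88cd fun n => g n + 1)
      rw [h88leStar_iff, h88fn_cd] at hx2
      have h1 := hg _ ⟨⟨x, hx⟩, rfl⟩
      have h2 := hx2.union h1
      have h3 : ({k | ¬ (g k + 1) ≤ h88fn x k} ∪ {n | ¬ h88fn x n ≤ g n}) = Set.univ := by
        ext n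
        simp only [Set.mem_union, Set.mem_ofPred_eq, Set.mem_univ, iff_true]
        omega
      have h4 : (Set.univ : Set ℕ).Finite := h3 ▸ h2
      exact Set.infinite_univ h4
  have htype2 : Ordinal.type ((· < ·) : I → I → Prop) = Ordinal.type r := by
    rw [htype]
    exact Ordinal.type_toType _
  obtain ⟨e⟩ := Ordinal.type_eq.1 htype2
  refine ⟨fun i => (e i).1, fun i => (e i).2, fun y hy => ⟨e.symm ⟨y, hy⟩, by simp⟩, ?_⟩
  intro i j
  rw [← not_lt, ← e.map_rel_iff]
  exact not_not

/-- FR-Z1 -/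
theorem exists_pscale (h : SentA univ univ) : ∃ φ : I → ℕ → ℕ, PScale φ := by
  classical
  obtain ⟨E, -, -, hinc, htot, hanti, hdesc, hbd, hdom, hroot, hpi⟩ := h
  obtain ⟨e, heE, hsurj, hle⟩ := h88order htot hanti (fun r hr => hdesc r trivial hr)
    (fun C x hx => by
      obtain ⟨g, -, hg⟩ := hbd C trivial x hx
      exact ⟨g, hg⟩) (fun g => hdom g trivial)
  refine ⟨fun i => h88fn (e i), ⟨fun i => h88inc (hinc _ (heE i)), ?_, ?_, ?_, ?_⟩⟩
  · intro i j
    rw [hle, h88leStar_iff]
  · intro g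
    obtain ⟨x, hx, hx2⟩ := hdom (h88cd g) trivial
    obtain ⟨i, rfl⟩ := hsurj x hx
    rw [h88leStar_iff, h88fn_cd] at hx2
    exact ⟨i, hx2⟩
  · intro n i
    obtain ⟨y, hy, h1, h2⟩ := hroot n _ (heE i)
    obtain ⟨j, rfl⟩ := hsurj y hy
    rw [h88fnLe_iff] at h2
    exact ⟨j, (hle _ _).2 h1, not_le.1 h2⟩
  · intro γ A t hA
    have hnd : ∀ s : List ℕ, nd (Encodable.encode s) = s := by
      intro s
      unfold nd
      exact Denumerable.ofNat_encode s
    have hdn : ∀ n : ℕ, Encodable.encode (nd n) = n := by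
      intro n
      unfold nd
      exact Denumerable.encode_ofNat n
    obtain ⟨Z, -, hZinf, hZA, hZk, hZy⟩ := hpi (e γ) (heE γ) (fun n => nd n ∈ A) trivial t (by
      intro r _ hr m k
      choose q hq using fun i => hsurj _ (hr i)
      obtain ⟨j, v, hj, hjA, hjF⟩ := hA (((Finset.range m).filter fun i => q i < γ).image q)
        (by
          intro x hx
          rw [Finset.mem_image] at hx
          obtain ⟨i, hi, rfl⟩ := hx
          exact (Finset.mem_filter.1 hi).2) k
      refine ⟨Encodable.encode (t ++ j :: v), ?_, ?_, ?_⟩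
      · show nd _ ∈ A
        rw [hnd]; exact hjA
      · rw [hnd]
        exact ⟨j, v, hj, rfl⟩
      · intro i hi hlt hok
        rw [hnd]
        have h1 : q i < γ := by
          rw [← not_le, hle, hq]
          exact hlt
        rw [h88ok_iff, ← hq] at hok
        have h2 := hjF (q i) (Finset.mem_image.2 ⟨i, Finset.mem_filter.2
          ⟨Finset.mem_range.2 hi, h1⟩, rfl⟩) hok
        intro i' hi' _ hv
        rw [h88valEq_iff, ← hq] at hv
        exact h2 i' hi' hv.symm)
    refine ⟨{s | Z (Encodable.encode s)}, ?_, ?_, ?_, ?_⟩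
    · intro hfin
      apply hZinf
      obtain ⟨M, hM⟩ := (hfin.image Encodable.encode).bddAbove
      refine ⟨M + 1, fun n hn hZn => ?_⟩
      have := hM ⟨nd n, (by
        show Z (Encodable.encode (nd n))
        rw [hdn]; exact hZn), hdn n⟩
      omega
    · intro s hs
      have h1 := hZA _ hs
      rw [hnd] at h1
      exact h1
    · intro k
      obtain ⟨M, hM⟩ := hZk k
      refine (((Set.finite_lt_nat M)).preimage (f := (Encodable.encode : List ℕ → ℕ))
        Encodable.encode_injective.injOn).subset ?_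
      rintro s ⟨hs, hs2⟩
      by_contra hc
      refine hM _ (not_lt.1 hc) ⟨hs, ?_⟩
      rw [hnd]
      exact hs2
    · intro x hx hok
      obtain ⟨M, hM⟩ := hZk 0
      obtain ⟨M', hM'⟩ := hZy (e x) (heE x) (by
        rw [← hle, not_le]; exact hx) ((h88ok_iff _ _).2 hok)
      refine (((Set.finite_lt_nat (max M M'))).preimage (f := (Encodable.encode : List ℕ → ℕ))
        Encodable.encode_injective.injOn).subset ?_
      rintro s ⟨hs, hs2⟩
      by_contra hc
      have hc' : max M M' ≤ Encodable.encode s := not_lt.1 hc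
      have hpn : PN t 0 s := by
        by_contra hc2
        refine hM _ ((le_max_left _ _).trans hc') ⟨hs, ?_⟩
        rw [hnd]; exact hc2
      have hav : Av t (e x) s := by
        by_contra hc2
        refine hM' _ ((le_max_right _ _).trans hc') ⟨hs, ?_⟩
        rw [hnd]; exact hc2
      apply hs2
      obtain ⟨j, u, -, rfl⟩ := hpn
      intro i hi heq
      by_cases hit : i < t.length
      · have h4 : (t ++ j :: u)[i] = t[i] := List.getElem_append_left hit
        have h5 : (t ++ j :: u).take i = t.take i := List.take_append_of_le_length hit.le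
        rw [h4, h5] at heq
        exact hok i hit heq
      · refine hav i hi (not_lt.1 hit) ?_
        rw [h88valEq_iff]
        exact heq.symm

end Pool.Agent.Helper32.FR
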